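import Pool.Agent.MP_6bdc24_co.Family

namespace Pool.Agent.Results.MP_6bdc24_co.FewPeripheralCycles

open Pool.Agent.MP_6bdc24_co

/-- For every `k` and every `c > 1` there is a finite simple cubic `3`-edge-connected nonplanar
graph with representativity at least `k` which has fewer than `c ^ n` peripheral cycles, where `n`
is its number of vertices. -/
theorem result :
    ∀ (k : ℕ) (c : ℝ), 1 < c →
      ∃ (V : Type) (_ : Fintype V) (G : SimpleGraph V),
        G.IsEdgeConnected 3 ∧ (∀ v, (G.neighborSet v).ncard = 3) ∧ Nonplanar G ∧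
        HasRepresentativityAtLeast G k ∧
        (numPeripheral G : ℝ) < c ^ Fintype.card V := by
  intro k₀ c hc
  set k := max k₀ 4 with hkdef
  have hk : 4 ≤ k := le_max_right _ _
  have hk₀ : k₀ ≤ k := le_max_left _ _
  obtain ⟨m, hm⟩ := exists_large (PerSet (baseG k)).ncard (2 * k ^ 2) hc
  obtain ⟨V, hV, G, v, x, D, hC, hE, hM, hP, hcard, -, hgrid⟩ := family hk m
  have hF := Fintype.ofFinite V
  refine ⟨V, hF, G, hE, hC.cubic, Or.inl hM.isMinor, ?_, ?_⟩
  · refine ⟨Torus, inferInstance, D.toEmbedding, torus_closedSurface, torus_ne_sphere, ?_⟩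
    intro y γ _ hγ
    have h1 := grid_meets hk γ hγ
    have h2 : (k₀ : ℕ∞) ≤ (k : ℕ∞) := by exact_mod_cast hk₀
    refine h2.trans (h1.trans (Set.encard_le_encard ?_))
    refine Set.inter_subset_inter_right _ (hgrid.trans ?_)
    rintro p ⟨e, hp⟩
    exact D.arc_subset_carrier e hp
  · rw [← Nat.card_eq_fintype_card, hcard]
    refine lt_of_le_of_lt ?_ hm
    have h1 := numPeripheral_le G
    exact_mod_cast h1.trans hP

end Pool.Agent.Results.MP_6bdc24_co.FewPeripheralCycles
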